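import Pool.Agent.HomO.Iso
import Pool.Agent.HomW.Grid
import Pool.Agent.HomQ.Bip

/-!
# The torus of cells with odd side is not bipartite (helper32)
-/

set_option autoImplicit false

namespace Pool.Agent.HomO

open Finset Classical Pool.Agent.HomV Pool.Agent.HomW Pool.Agent.HomQ

/-- as `HomW.Iso`, with non-bipartite sets -/
def IsoB {U : Type} [Fintype U] (X : SimpleGraph U) (Q k : ℕ) : ℕ → Finset U → Prop
  | 0, Y => Good X Y Q ∧ NB0 X (Y : Set U)
  | n + 1, Y => (Good X Y Q ∧ NB0 X (Y : Set U)) ∧ ∀ T : Finset U, T.card ≤ k → ∃ Y' ⊆ Y,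
      3 * (Y \ Y').card < Y.card ∧ (∀ c ∈ T, ∀ i ∈ Y', ¬ Near X k c i) ∧ IsoB X Q k n Y'

open Pool.Agent.HomT (GU gX dr io opp ball cell_const ball_card walk_ball)

theorem reg_nb {N p : ℕ} [Fact (1 < N)] [NeZero N] [Fact p.Prime] [NeZero p] (hp : 15 ≤ p)
    (hN : ¬ 2 ∣ N) {bc br : Finset (ZMod N)} (hbr : ∃ j, j ∉ br) :
    NB0 (gX N p) (reg N p bc br : Set (GU N p)) := by
  obtain ⟨j₀, hj₀⟩ := hbr
  intro κ
  by_contra hcon
  push Not at hcon
  have hmem : ∀ (i : ZMod N) (a : AffU p), ((i, j₀), a) ∈ (reg N p bc br : Set (GU N p)) :=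
    fun i a => Finset.mem_coe.2 (mem_reg.2 fun h => hj₀ h.2)
  have hne : ∀ x y : ZMod 2, x ≠ y → x + 1 = y := by decide
  have hne' : ∀ x y s t : ZMod 2, x ≠ y → s ≠ t → x + s = y + t := by decide
  have hcell : ∀ (i : ZMod N) (a b : AffU p), κ ((i, j₀), a) + tp a = κ ((i, j₀), b) + tp b := by
    intro i a b
    have h1 := cell_const 1 p (by omega) (∅ : Finset (AffU p)) (by simp)
      (fun x => κ ((i, j₀), x) + tp x = κ ((i, j₀), b) + tp b) (fun u v _ _ huv => by
        have h2 : κ ((i, j₀), u) ≠ κ ((i, j₀), v) :=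
          hcon _ (hmem i u) _ (hmem i v) (Or.inl ⟨rfl, huv⟩)
        rw [hne' _ _ _ _ h2 (tp_ne huv)]) a b (by simp) (by simp)
    exact h1.2 rfl
  have hstep : ∀ i : ZMod N, κ ((i + 1, j₀), Sum.inl (0, 0)) = κ ((i, j₀), Sum.inl (0, 0)) + 1 := by
    intro i
    have h2 : ((i, j₀) : ZMod N × ZMod N) + dr N 0 = (i + 1, j₀) := by
      refine Prod.ext ?_ ?_ <;> simp [dr]
    have h1 : κ ((i, j₀), Sum.inl (0, io p 0)) ≠ κ ((i + 1, j₀), Sum.inl (0, io p (opp 0))) := by
      refine hcon _ (hmem i _) _ (hmem (i + 1) _) (Or.inr ⟨0, 0, rfl, ?_⟩)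
      rw [h2]
    have h3 := hcell i (Sum.inl (0, io p 0)) (Sum.inl (0, 0))
    have h4 := hcell (i + 1) (Sum.inl (0, io p (opp 0))) (Sum.inl (0, 0))
    have h5 : κ ((i, j₀), Sum.inl (0, io p 0)) = κ ((i, j₀), Sum.inl (0, 0)) := add_right_cancel h3
    have h6 : κ ((i + 1, j₀), Sum.inl (0, io p (opp 0))) = κ ((i + 1, j₀), Sum.inl (0, 0)) :=
      add_right_cancel h4
    rw [← h5, ← h6]
    exact (hne _ _ h1).symm
  have hall : ∀ m : ℕ, κ (((m : ZMod N), j₀), Sum.inl (0, 0)) =
      κ ((0, j₀), Sum.inl (0, 0)) + (m : ZMod 2) := by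
    intro m
    induction m with
    | zero => simp
    | succ m ih =>
      push_cast
      rw [hstep, ih, add_assoc]
  have h7 := hall N
  rw [ZMod.natCast_self] at h7
  have h8 : ((N : ℕ) : ZMod 2) = 0 := by
    have h9 : κ ((0, j₀), Sum.inl (0, 0)) + 0 = κ ((0, j₀), Sum.inl (0, 0)) + ((N : ℕ) : ZMod 2) := by
      rw [add_zero]
      exact h7
    exact (add_left_cancel h9).symm
  exact hN ((ZMod.natCast_eq_zero_iff N 2).1 h8)

theorem reg_isoB {N : ℕ} [Fact (1 < N)] [NeZero N] (Q p : ℕ) [Fact p.Prime] [NeZero p]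
    (hpQ : 5 * Q + 15 ≤ p) (k L : ℕ) (hN : 2 * (L * (k * 5 ^ k)) + 2 ≤ N) (hN2 : ¬ 2 ∣ N) :
    ∀ (n : ℕ) (bc br : Finset (ZMod N)), bc.card + n * (k * 5 ^ k) ≤ L * (k * 5 ^ k) →
      br.card + n * (k * 5 ^ k) ≤ L * (k * 5 ^ k) → IsoB (gX N p) Q k n (reg N p bc br) := by
  have hex : ∀ s : Finset (ZMod N), s.card ≤ L * (k * 5 ^ k) → ∃ i, i ∉ s := by
    intro s hs
    by_contra hno
    push Not at hno
    have h1 : s = univ := Finset.eq_univ_iff_forall.2 hno
    rw [h1, Finset.card_univ, ZMod.card] at hs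
    omega
  intro n
  induction n with
  | zero =>
    intro bc br h1 h2
    exact ⟨reg_good Q p (by omega) (hex bc (by omega)) (hex br (by omega)),
      reg_nb (by omega) hN2 (hex br (by omega))⟩
  | succ n ih =>
    intro bc br h1 h2
    refine ⟨⟨reg_good Q p (by omega) (hex bc (by omega)) (hex br (by omega)),
      reg_nb (by omega) hN2 (hex br (by omega))⟩, fun T hT => ?_⟩
    set m := k * 5 ^ k with hm
    have hn1 : (n + 1) * m = n * m + m := by ring
    set Bad : Finset (ZMod N × ZMod N) := T.biUnion fun c => ball N k c.1 with hBad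
    have hBadc : Bad.card ≤ m := by
      have h1 : Bad.card ≤ T.card * 5 ^ k :=
        Finset.card_biUnion_le_card_mul _ _ _ fun x _ => ball_card N k x.1
      exact h1.trans (Nat.mul_le_mul_right _ hT)
    set bc' := bc ∪ Bad.image Prod.fst with hbc'
    set br' := br ∪ Bad.image Prod.snd with hbr'
    have hc1 : bc'.card ≤ bc.card + m := (Finset.card_union_le _ _).trans
      (Nat.add_le_add_left (Finset.card_image_le.trans hBadc) _)
    have hc2 : br'.card ≤ br.card + m := (Finset.card_union_le _ _).trans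
      (Nat.add_le_add_left (Finset.card_image_le.trans hBadc) _)
    refine ⟨reg N p bc' br', ?_, ?_, ?_, ih bc' br' (by omega) (by omega)⟩
    · intro x hx
      rw [mem_reg] at hx ⊢
      exact fun h => hx ⟨Finset.mem_union_left _ h.1, Finset.mem_union_left _ h.2⟩
    · have hA : 0 < Fintype.card (AffU p) := Fintype.card_pos_iff.2 ⟨Sum.inl (0, 0)⟩
      have hU : Fintype.card (GU N p) = N * N * Fintype.card (AffU p) := by
        rw [Fintype.card_prod, Fintype.card_prod, ZMod.card]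
      have e1 : ∀ s : Finset (GU N p), (∀ x ∈ s, x ∈ reg N p bc br ∧ x ∉ reg N p bc' br') →
          s.card ≤ L * m * (L * m) * Fintype.card (AffU p) := by
        intro s hs
        refine (Finset.card_le_card ?_).trans
          (card_compl_reg p (bc := bc') (br := br') (m := L * m) (by omega) (by omega))
        intro x hx
        have hx' := hs x hx
        rw [Finset.mem_filter]
        refine ⟨Finset.mem_univ _, ?_⟩
        by_contra h
        exact hx'.2 (mem_reg.2 h)
      have e2 : (univ.filter fun x : GU N p => x.1.1 ∈ bc ∧ x.1.2 ∈ br).card ≤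
          L * m * (L * m) * Fintype.card (AffU p) :=
        card_compl_reg p (m := L * m) (by omega) (by omega)
      have e3 : (univ.filter fun x : GU N p => x.1.1 ∈ bc ∧ x.1.2 ∈ br).card +
          (reg N p bc br).card = Fintype.card (GU N p) := by
        rw [← Finset.card_univ]
        exact Finset.card_filter_add_card_filter_not _
      rw [hU] at e3
      have e4 : 4 * (L * m * (L * m)) < N * N := by
        have h5 : 2 * (L * m) < N := by omega
        calc 4 * (L * m * (L * m)) = 2 * (L * m) * (2 * (L * m)) := by ring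
          _ < N * N := Nat.mul_lt_mul'' h5 h5
      have e5 := Nat.mul_lt_mul_of_pos_right e4 hA
      have e6 : 4 * (L * m * (L * m)) * Fintype.card (AffU p) =
          4 * (L * m * (L * m) * Fintype.card (AffU p)) := by ring
      refine lt_of_le_of_lt (Nat.mul_le_mul_left 3 (e1 _ fun x hx => by simpa using hx)) ?_
      omega
    · rintro c hc x hx ⟨w, hw⟩
      rw [mem_reg] at hx
      have h3 : x.1 ∈ Bad := by
        rw [hBad, Finset.mem_biUnion]
        exact ⟨c, hc, walk_ball w k hw⟩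
      exact hx ⟨Finset.mem_union_right _ (Finset.mem_image_of_mem _ h3),
        Finset.mem_union_right _ (Finset.mem_image_of_mem _ h3)⟩

theorem exists_isoB (Q k n : ℕ) :
    ∃ (U : Type) (_ : Fintype U) (X : SimpleGraph U), IsoB X Q k n univ := by
  obtain ⟨p, hp, hpp⟩ := Nat.exists_infinite_primes (5 * Q + 15)
  have : Fact p.Prime := ⟨hpp⟩
  have : NeZero p := ⟨hpp.ne_zero⟩
  have : Fact (1 < 2 * (n * (k * 5 ^ k)) + 3) := ⟨by omega⟩
  have : NeZero (2 * (n * (k * 5 ^ k)) + 3) := ⟨by omega⟩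
  refine ⟨GU (2 * (n * (k * 5 ^ k)) + 3) p, inferInstance, gX (2 * (n * (k * 5 ^ k)) + 3) p, ?_⟩
  have h := reg_isoB (N := 2 * (n * (k * 5 ^ k)) + 3) Q p (by omega) k n (by omega) (by omega) n
    ∅ ∅ (by simp) (by simp)
  have h1 : reg (2 * (n * (k * 5 ^ k)) + 3) p ∅ ∅ = univ :=
    Finset.eq_univ_iff_forall.2 fun x => mem_reg.2 (by simp)
  rwa [h1] at h

end Pool.Agent.HomO
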