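import Pool.Agent.HomO.Iso
import Pool.Agent.HomQ.RGood

/-!
# The graphs are not bipartite (helper98)

`rg_nb`: let `κ` be a proper colouring of `rcells p Y` without `S`. In the first copy (`false`) of the cell `u`
`κ (u, a, false) + tp a` is constant outside of `S` (`cell_const`; `tp` from HomQ/Bip), equal to `κ₀ u`; the ports
(`cell_port` for the first copy) give `κ₀ u ≠ κ₀ v` for adjacent `u, v ∈ Y`, against `NB0`.
`sub_nb`: `κ' i = κ (inl i)`: along the half edge `(i, j)` the colours alternate, `κ (inr ((i, j), s)) = κ (inl i) + (s + 1)`,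
and the middle edge gives `κ' i + L ≠ κ' j + L`.
-/

set_option autoImplicit false

namespace Pool.Agent.HomO

open Finset Classical Pool.Agent.HomV Pool.Agent.HomQ
open Pool.Agent.HomZ (SW sub regS mem_regS_inl mem_regS_inr)
open Pool.Agent.HomT (cell_const)

theorem nb_sub_path {U₀ : Type} [Fintype U₀] {B : SimpleGraph U₀} {L : ℕ} {Y₀ : Finset U₀}
    {χ : SW B L → ZMod 2}
    (h : ∀ a ∈ regS B L Y₀, ∀ b ∈ regS B L Y₀, (sub B L).Adj a b → χ a ≠ χ b)
    (q : {q : U₀ × U₀ // B.Adj q.1 q.2}) (hq : q.1.1 ∈ Y₀ ∧ q.1.2 ∈ Y₀) :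
    ∀ (s : ℕ) (hs : s < L), χ (Sum.inr (q, ⟨s, hs⟩)) = χ (Sum.inl q.1.1) + ((s + 1 : ℕ) : ZMod 2) := by
  have hne : ∀ x y : ZMod 2, x ≠ y → y = x + 1 := by decide
  intro s
  induction s with
  | zero =>
    intro hs
    have h1 := h (Sum.inl q.1.1) (mem_regS_inl.2 hq.1) (Sum.inr (q, ⟨0, hs⟩)) (mem_regS_inr.2 hq)
      ⟨rfl, rfl⟩
    rw [hne _ _ h1]
    simp
  | succ s ih =>
    intro hs
    have h1 := h (Sum.inr (q, ⟨s, by omega⟩)) (mem_regS_inr.2 hq) (Sum.inr (q, ⟨s + 1, hs⟩))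
      (mem_regS_inr.2 hq) (Or.inl ⟨rfl, Or.inl rfl⟩)
    rw [hne _ _ h1, ih (by omega)]
    push_cast
    ring

theorem nb_sub {U₀ : Type} [Fintype U₀] {B : SimpleGraph U₀} {L : ℕ} (hL : 0 < L) {Y₀ : Finset U₀}
    {χ : SW B L → ZMod 2}
    (h : ∀ a ∈ regS B L Y₀, ∀ b ∈ regS B L Y₀, (sub B L).Adj a b → χ a ≠ χ b)
    {i j : U₀} (hi : i ∈ Y₀) (hj : j ∈ Y₀) (hij : B.Adj i j) :
    χ (Sum.inl i) ≠ χ (Sum.inl j) := by
  have hL1 : L - 1 < L := by omega
  have h1 := nb_sub_path h ⟨(i, j), hij⟩ ⟨hi, hj⟩ (L - 1) hL1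
  have h2 := nb_sub_path h ⟨(j, i), hij.symm⟩ ⟨hj, hi⟩ (L - 1) hL1
  have h3 := h (Sum.inr (⟨(i, j), hij⟩, ⟨L - 1, hL1⟩)) (mem_regS_inr.2 ⟨hi, hj⟩)
    (Sum.inr (⟨(j, i), hij.symm⟩, ⟨L - 1, hL1⟩)) (mem_regS_inr.2 ⟨hj, hi⟩)
    (Or.inr ⟨rfl, by simp only; omega, by simp only; omega⟩)
  rw [h1, h2] at h3
  intro h4
  have h4' : χ (Sum.inl i) = χ (Sum.inl j) := h4
  exact h3 (by rw [h4'])

theorem tr_false {p : ℕ} (a : AffU p) : tr false a = a := by
  rcases a with ⟨x, y⟩ | l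
  · show (Sum.inl (x, y - if false then 1 else 0) : AffU p) = Sum.inl (x, y)
    simp
  · rfl

theorem nb_rg {W : Type} [Fintype W] {Γ : SimpleGraph W} {p : ℕ} [NeZero p] {ix : W → ZMod p}
    (Q : ℕ) [Fact p.Prime] (hp : 5 * Q + 10 ≤ p) {Y : Finset W}
    {S : Finset (RU W p)} (hS : S.card < Q) {χ : RU W p → ZMod 2}
    (h : ∀ a ∈ rcells p Y, a ∉ S → ∀ b ∈ rcells p Y, b ∉ S → (rg Γ ix).Adj a b → χ a ≠ χ b) :
    ∃ c : W → ZMod 2, ∀ u ∈ Y, ∀ v ∈ Y, Γ.Adj u v → c u ≠ c v := by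
  have hiff : ∀ x y : ZMod 2, (x = 0 ↔ y = 0) → x = y := by decide
  have hflip : ∀ x y s t : ZMod 2, x ≠ y → s ≠ t → x + s = y + t := by decide
  have cell : ∀ u ∈ Y, ∀ a b : AffU p, (u, a, false) ∉ S → (u, b, false) ∉ S →
      χ (u, a, false) + tp a = χ (u, b, false) + tp b := by
    intro u hu a b ha hb
    have hSg : (univ.filter fun a : AffU p => ((u, a, false) : RU W p) ∈ S).card < Q := by
      refine lt_of_le_of_lt (Finset.card_le_card_of_injOn (fun j => (u, j, false)) ?_ ?_) hS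
      · intro j hj
        exact Finset.mem_coe.2 (Finset.mem_filter.1 (Finset.mem_coe.1 hj)).2
      · intro a _ b _ h
        exact congrArg (fun x : RU W p => x.2.1) h
    refine hiff _ _ (cell_const Q p hp
      (univ.filter fun a : AffU p => ((u, a, false) : RU W p) ∈ S) hSg
      (fun a => χ (u, a, false) + tp a = 0) (fun i j hi hj hij => ?_) a b ?_ ?_)
    · have hi' : (u, i, false) ∉ S := fun h => hi (Finset.mem_filter.2 ⟨Finset.mem_univ _, h⟩)
      have hj' : (u, j, false) ∉ S := fun h => hj (Finset.mem_filter.2 ⟨Finset.mem_univ _, h⟩)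
      have h1 := h (u, i, false) (mem_rcells.2 hu) hi' (u, j, false) (mem_rcells.2 hu) hj'
        (Or.inl ⟨rfl, rfl, by
          show (affX p).Adj (tr false i) (tr false j)
          rw [tr_false, tr_false]
          exact hij⟩)
      rw [hflip _ _ _ _ h1 (tp_ne hij)]
    · exact fun h => ha (Finset.mem_filter.1 h).2
    · exact fun h => hb (Finset.mem_filter.1 h).2
  have hex : ∀ u : W, ∃ a : AffU p, (u, a, false) ∉ S := by
    intro u
    obtain ⟨m, hm, -⟩ := avoid_two S (by omega)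
      (fun m : ZMod p => ((u, Sum.inr (m, 0), false) : RU W p))
      (fun m : ZMod p => ((u, Sum.inr (m, 0), false) : RU W p))
      (fun m m' h => congrArg Prod.fst (Sum.inr.inj (congrArg (fun x : RU W p => x.2.1) h)))
      (fun m m' h => congrArg Prod.fst (Sum.inr.inj (congrArg (fun x : RU W p => x.2.1) h)))
    exact ⟨_, hm⟩
  choose a ha using hex
  refine ⟨fun u => χ (u, a u, false) + tp (a u), ?_⟩
  intro u hu v hv huv hc
  obtain ⟨x, hx1, hx2⟩ := avoid_two S (by omega)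
    (fun x : ZMod p => ((u, Sum.inl (x, ix v), false) : RU W p))
    (fun x : ZMod p => ((v, Sum.inl (x, ix u), false) : RU W p))
    (fun m m' h => congrArg Prod.fst (Sum.inl.inj (congrArg (fun x : RU W p => x.2.1) h)))
    (fun m m' h => congrArg Prod.fst (Sum.inl.inj (congrArg (fun x : RU W p => x.2.1) h)))
  have h1 := h _ (mem_rcells.2 hu) hx1 _ (mem_rcells.2 hv) hx2
    (Or.inr (Or.inl ⟨rfl, huv, x, rfl, rfl⟩))
  have h2 := cell u hu (a u) _ (ha u) hx1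
  have h3 := cell v hv (a v) _ (ha v) hx2
  have hc' : χ (u, a u, false) + tp (a u) = χ (v, a v, false) + tp (a v) := hc
  rw [h2, h3] at hc'
  exact h1 (add_right_cancel hc')

theorem rg_nb {W : Type} [Fintype W] {Γ : SimpleGraph W} {p : ℕ} [NeZero p] {ix : W → ZMod p}
    (Q : ℕ) [Fact p.Prime] (hp : 5 * Q + 10 ≤ p) {Y : Finset W} (hN : NB0 Γ (Y : Set W)) :
    NB (rg Γ ix) (rcells p Y) Q := by
  intro S hS κ
  by_contra hcon
  push Not at hcon
  obtain ⟨c, hc⟩ := nb_rg (Γ := Γ) (ix := ix) Q hp (Y := Y) hS (χ := κ)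
    (fun a ha haS b hb hbS hab => hcon a ha b hb haS hbS hab)
  obtain ⟨i, hi, j, hj, hij, h⟩ := hN c
  exact hc i (Finset.mem_coe.1 hi) j (Finset.mem_coe.1 hj) hij h

theorem sub_nb {U₀ : Type} [Fintype U₀] {B : SimpleGraph U₀} {L : ℕ} (hL : 0 < L)
    {Y₀ : Finset U₀} (hN : NB0 B (Y₀ : Set U₀)) :
    NB0 (sub B L) (regS B L Y₀ : Set (SW B L)) := by
  intro κ
  by_contra hcon
  push Not at hcon
  obtain ⟨i, hi, j, hj, hij, h⟩ := hN fun i => κ (Sum.inl i)
  exact nb_sub hL (χ := κ)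
    (fun a ha b hb hab => hcon a (Finset.mem_coe.2 ha) b (Finset.mem_coe.2 hb) hab)
    (Finset.mem_coe.1 hi) (Finset.mem_coe.1 hj) hij h

end Pool.Agent.HomO
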