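import Pool.Agent.HomQ.Def

/-!
# Classes with excluded odd minors
-/

set_option autoImplicit false

namespace Pool.Agent.HomO

open Pool.Agent.HomV Pool.Agent.HomI Pool.Agent.HomW Pool.Agent.HomQ

/-- The graph `F` is obtained by clique sums of order at most `k` from `k`-nearly embeddable graphs
and from graphs which become bipartite (with the sides given by `c`) by deleting a set `S` of at
most `k` vertices; all edges outside of `S` of these graphs are edges of the graph `R`.
(`R` is the graph from which the decomposition starts: no edge added by a clique sum has both ends
outside of `S`.) -/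
inductive OddClass {V : Type} (k : ℕ) (R : SimpleGraph V) : SimpleGraph V → Prop
  | near (F : SimpleGraph V) (h : Nonempty (NearEmb k F)) : OddClass k R F
  | bip (F : SimpleGraph V) (S : Finset V) (hS : S.card ≤ k) (c : V → Bool)
      (h : ∀ a b, F.Adj a b → a ∉ S → b ∉ S → R.Adj a b ∧ c a ≠ c b) : OddClass k R F
  | sum (F : SimpleGraph V) (A B : Set V) (hAB : A ∪ B = Set.univ)
      (hadj : ∀ u v, F.Adj u v → (u ∈ A ∧ v ∈ A) ∨ (u ∈ B ∧ v ∈ B))
      (hcard : (A ∩ B).ncard ≤ k) (hA : OddClass k R (torso F A B))
      (hB : OddClass k R (torso F B A)) : OddClass k R F

/-- The class `M k 0` is the closure under gluing along complete subgraphs of the graphs with the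
property `Coarse k`, of the graphs without an immersion of the complete graph with `k` vertices and
of the graphs `F` with `OddClass k F F`.
The class `M k (n + 1)` is the closure under gluing along complete subgraphs of the graphs whose
vertex set has a hierarchy of thin cuts down to parts which induce graphs in `M k n`. -/
def M {V : Type} (k : ℕ) : ℕ → SimpleGraph V → Prop
  | 0, F => Glue (fun F => Coarse k F ∨ IsEmpty (CliqueImm k F) ∨ OddClass k F F) F
  | n + 1, F => Glue (fun F => Dec (M k n) k F Set.univ) F

end Pool.Agent.HomO
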