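import Pool.Agent.HomQ.Iso

/-!
# The properties of the base graph
-/

set_option autoImplicit false

namespace Pool.Agent.HomO

open Finset Classical Pool.Agent.HomV Pool.Agent.HomW Pool.Agent.HomQ

/-- the graph of the live vertices `Y` is not bipartite, and remains so after deleting less than
`Q` vertices -/
def NB {U : Type} [Fintype U] (X : SimpleGraph U) (Y : Finset U) (Q : ℕ) : Prop :=
  ∀ S : Finset U, S.card < Q → ∀ κ : U → ZMod 2, ∃ i ∈ Y, ∃ j ∈ Y, i ∉ S ∧ j ∉ S ∧ X.Adj i j ∧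
    κ i = κ j

/-- the graph of the live vertices `Y` is not bipartite -/
def NB0 {U : Type} (X : SimpleGraph U) (Y : Set U) : Prop :=
  ∀ κ : U → ZMod 2, ∃ i ∈ Y, ∃ j ∈ Y, X.Adj i j ∧ κ i = κ j

/-- `Y` is good, fat and not bipartite, and (`n` times) for any `k` vertices more than two thirds of
the marked vertices of `Y` are in a set `Y'` which is again good, fat and not bipartite, all of
whose vertices have distance greater than `k` from these vertices -/
def Iso {U : Type} [Fintype U] (X : SimpleGraph U) (D : Finset U) (Q k : ℕ) : ℕ → Finset U → Prop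
  | 0, Y => Good X Y Q ∧ Fat X Y Q (2 * k * k + k) ∧ NB X Y Q
  | n + 1, Y => (Good X Y Q ∧ Fat X Y Q (2 * k * k + k) ∧ NB X Y Q) ∧
      ∀ T : Finset U, T.card ≤ k → ∃ Y' ⊆ Y,
        3 * (Y.filter fun i => i ∈ D ∧ i ∉ Y').card < (Y.filter fun i => i ∈ D).card ∧
        (∀ c ∈ T, ∀ i ∈ Y', ¬ Near X k c i) ∧ Iso X D Q k n Y'

theorem Iso.good {U : Type} [Fintype U] {X : SimpleGraph U} {D : Finset U} {Q k : ℕ} :
    ∀ {n : ℕ} {Y : Finset U}, Iso X D Q k n Y → Good X Y Q
  | 0, _, h => h.1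
  | _ + 1, _, h => h.1.1

theorem Iso.fat {U : Type} [Fintype U] {X : SimpleGraph U} {D : Finset U} {Q k : ℕ} :
    ∀ {n : ℕ} {Y : Finset U}, Iso X D Q k n Y → Fat X Y Q (2 * k * k + k)
  | 0, _, h => h.2.1
  | _ + 1, _, h => h.1.2.1

theorem Iso.nb {U : Type} [Fintype U] {X : SimpleGraph U} {D : Finset U} {Q k : ℕ} :
    ∀ {n : ℕ} {Y : Finset U}, Iso X D Q k n Y → NB X Y Q
  | 0, _, h => h.2.2
  | _ + 1, _, h => h.1.2.2

end Pool.Agent.HomO
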