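import Pool.Agent.HomO.Iso
import Pool.Agent.HomO.Def
import Pool.Agent.HomI.SumF
import Pool.Agent.HomW.NoX

/-!
# Bipartite graphs contain no homological copy of a graph which is not bipartite (helper20)

`no_copy_bip`: `H' = homX_sdiff H (S.image H.f)` (live set `Y \ T`, `T = S.image H.f`). For `i ∈ Y \ T` let `r₀ i` and
`r₁ i` be the sums of `H'.t a` over the `a` in the fibre of `i` with `c a = false` and `c a = true`: `r₀ i + r₁ i = 1`
(`total`). For adjacent `i, j ∈ Y \ T`: `r₀ i = r₁ j`, both are the sum of `H'.y a b s(i, j)` over `f a = i`, `c a = false`,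
`f b = j`, `c b = true` (`eqn` at `a` evaluated at `s(i, j)`; `y a b s(i, j) ≠ 0` gives `F.Adj a b`, `f a, f b ∈ s(i, j)` by
`y_star`, so `a, b ∉ S`, so `R.Adj a b`, `c a ≠ c b` and `X.Adj (f a) (f b)`, so `f a ≠ f b`). So `r₀` is a proper
colouring of `Y \ T`, against `NB`.
`no_copy_odd`: induction; `near`: `hQ`; `sum`: `homX_torso'` (HomI/SumF), which keeps `f`.
-/

set_option autoImplicit false

namespace Pool.Agent.HomO

open Finset Classical Pool.Agent.HomV Pool.Agent.HomW

variable {U : Type} [Fintype U] {V : Type} [Fintype V] {X : SimpleGraph U} {Y : Finset U} {Q : ℕ}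

/-- the parity of the vertices with colour `s` in a fibre -/
private noncomputable def rs {F : SimpleGraph V} (H : HomX X Y F) (c : V → ZMod 2) (s : ZMod 2)
    (i : U) : ZMod 2 := ∑ a ∈ univ.filter (fun a => H.f a = i ∧ c a = s), H.t a

private theorem rs_add {F : SimpleGraph V} (H : HomX X Y F) (c : V → ZMod 2) (s : ZMod 2) {i : U}
    (hi : i ∈ Y) : rs H c s i + rs H c (s + 1) i = 1 := by
  refine Eq.trans ?_ (H.total i hi)
  unfold rs
  rw [← Finset.sum_union]
  · refine Finset.sum_congr ?_ fun _ _ => rfl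
    ext a
    simp only [Finset.mem_union, Finset.mem_filter, Finset.mem_univ, true_and]
    have h1 : ∀ x y : ZMod 2, x = y ∨ x = y + 1 := by decide
    have := h1 (c a) s
    tauto
  · rw [Finset.disjoint_filter]
    rintro a _ ⟨_, h1⟩ ⟨_, h2⟩
    have h3 : ∀ x : ZMod 2, x ≠ x + 1 := by decide
    exact h3 s (h1.symm.trans h2)

/-- the labels over an edge of `X` between two colours -/
private theorem rs_edge {F : SimpleGraph V} (H : HomX X Y F) (c : V → ZMod 2)
    (hc : ∀ a b, H.y a b ≠ 0 → X.Adj (H.f a) (H.f b) ∧ c a ≠ c b) (s : ZMod 2) {i j : U}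
    (hi : i ∈ Y) (hj : j ∈ Y) (hij : X.Adj i j) :
    rs H c s i = ∑ a ∈ univ.filter (fun a => H.f a = i ∧ c a = s),
      ∑ b ∈ univ.filter (fun b => H.f b = j ∧ c b = s + 1), H.y a b s(i, j) := by
  unfold rs
  refine Finset.sum_congr rfl fun a ha => ?_
  obtain ⟨h1, h2⟩ := (Finset.mem_filter.mp ha).2
  have h3 := congrFun (H.eqn a) s(i, j)
  rw [Finset.sum_apply, Pi.smul_apply, smul_eq_mul] at h3
  have h4 : star X Y (H.f a) s(i, j) = 1 := by
    unfold HomV.star
    rw [if_pos]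
    refine ⟨hij, ?_, ?_⟩
    · rw [h1]
      exact Sym2.mem_mk_left i j
    · intro l hl
      rcases Sym2.mem_iff.mp hl with h | h
      · rw [h]; exact hi
      · rw [h]; exact hj
  rw [h4, mul_one] at h3
  rw [← h3, Finset.sum_filter]
  refine Finset.sum_congr rfl fun b _ => ?_
  by_cases h5 : H.y a b s(i, j) = 0
  · rw [h5]
    simp
  · have h6 : H.y a b ≠ 0 := fun h => h5 (by rw [h]; rfl)
    obtain ⟨h7, h8⟩ := hc a b h6
    have h9 := (H.y_star b a).mem s(i, j) (by rw [← H.y_symm a b]; exact h5)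
    have h10 : H.f b = j := by
      rcases Sym2.mem_iff.mp h9 with h | h
      · rw [h1, h] at h7
        exact absurd h7 (X.loopless.irrefl i)
      · exact h
    have h11 : ∀ x y : ZMod 2, x ≠ y → y = x + 1 := by decide
    rw [if_pos ⟨h10, by rw [← h2]; exact h11 _ _ h8⟩]

/-- a homological copy over a homomorphism to `X` in a bipartite graph gives a colouring of `X` -/
private theorem rs_ne {F : SimpleGraph V} (H : HomX X Y F) (c : V → ZMod 2)
    (hc : ∀ a b, H.y a b ≠ 0 → X.Adj (H.f a) (H.f b) ∧ c a ≠ c b) {i j : U}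
    (hi : i ∈ Y) (hj : j ∈ Y) (hij : X.Adj i j) : rs H c 0 i ≠ rs H c 0 j := by
  have h1 := rs_edge H c hc 0 hi hj hij
  have h2 := rs_edge H c hc (0 + 1) hj hi hij.symm
  have h3 : ((0 : ZMod 2) + 1 + 1) = 0 := by decide
  rw [h3] at h2
  have h4 : rs H c 0 i = rs H c (0 + 1) j := by
    rw [h1, h2, Finset.sum_comm]
    refine Finset.sum_congr rfl fun b _ => Finset.sum_congr rfl fun a _ => ?_
    rw [H.y_symm, Sym2.eq_swap]
  have h5 := rs_add H c 0 hj
  intro h6
  rw [← h4, h6] at h5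
  have h7 : ∀ x : ZMod 2, x + x ≠ 1 := by decide
  exact h7 _ h5

theorem no_copy_bip (hN : NB X Y Q) {R F : SimpleGraph V} (S : Finset V) (hS : S.card < Q)
    (c : V → Bool) (h : ∀ a b, F.Adj a b → a ∉ S → b ∉ S → R.Adj a b ∧ c a ≠ c b)
    (H : HomX X Y F) (hf : ∀ a b, R.Adj a b → X.Adj (H.f a) (H.f b)) : False := by
  obtain ⟨H', hf', _⟩ := homX_sdiff H (S.image H.f)
  obtain ⟨c', hc'⟩ : ∃ c' : V → ZMod 2, ∀ a b, c a ≠ c b → c' a ≠ c' b := by
    refine ⟨fun a => if c a then 1 else 0, fun a b hab => ?_⟩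
    have h1 : ∀ x y : Bool, x ≠ y → (if x then (1 : ZMod 2) else 0) ≠ if y then 1 else 0 := by
      decide
    exact h1 _ _ hab
  obtain ⟨i, hi, j, hj, hiS, hjS, hij, he⟩ := hN (S.image H.f)
    (lt_of_le_of_lt Finset.card_image_le hS) (rs H' c' 0)
  refine rs_ne H' c' (fun a b hab => ?_) (Finset.mem_sdiff.mpr ⟨hi, hiS⟩)
    (Finset.mem_sdiff.mpr ⟨hj, hjS⟩) hij he
  have hne : ∀ a b, H'.y a b ≠ 0 → a ∉ S := by
    intro a b hab ha
    obtain ⟨e, he⟩ := Function.ne_iff.mp hab
    have h1 := star_ne.mp (H'.y_star a b e he)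
    have h2 := h1.2.2 _ h1.2.1
    rw [hf'] at h2
    exact (Finset.mem_sdiff.mp h2).2 (Finset.mem_image_of_mem _ ha)
  have ha := hne a b hab
  have hb := hne b a (by rw [← H'.y_symm a b]; exact hab)
  obtain ⟨h1, h2⟩ := h a b (H'.y_adj a b hab) ha hb
  rw [hf']
  exact ⟨hf a b h1, hc' a b h2⟩

theorem no_copy_odd {k : ℕ} (hk : k < Q) (hG : Good X Y Q) (hN : NB X Y Q)
    (hQ : ∀ {V : Type} [Fintype V] (F : SimpleGraph V), InClass k F → IsEmpty (HomX X Y F))
    {R F : SimpleGraph V} (hF : OddClass k R F) :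
    ∀ H : HomX X Y F, (∀ a b, R.Adj a b → X.Adj (H.f a) (H.f b)) → False := by
  induction hF with
  | near F h => exact fun H _ => (hQ F (InClass.near F h)).false H
  | bip F S hS c h =>
    exact fun H hf => no_copy_bip hN S (lt_of_le_of_lt hS hk) c h H hf
  | sum F A B hAB hadj hcard hA hB ihA ihB =>
    intro H hf
    rcases HomI.homX_torso' hG hk H A B hAB hadj hcard with ⟨H', hH'⟩ | ⟨H', hH'⟩
    · exact ihA H' fun a b hab => by
        rw [hH']
        exact hf a b hab
    · exact ihB H' fun a b hab => by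
        rw [hH']
        exact hf a b hab

end Pool.Agent.HomO
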