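import Pool.Agent.HomO.Iso
import Pool.Agent.HomW.Res

/-!
# Hierarchies, with marked vertices (helper27)

`HomW/Res` (`dec_small`, `no_copy_dec`) with the property `Iso` of `HomO/Iso` (marked vertices `D`); `res_homX` of
`HomW/Res` can be used as it is.
-/

set_option autoImplicit false

namespace Pool.Agent.HomO

open Finset Classical Pool.Agent.HomV Pool.Agent.HomI Pool.Agent.HomW

variable {U : Type} [Fintype U] {V : Type} [Fintype V] {X : SimpleGraph U} {Y Y' D : Finset U}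
  {Q : ℕ}

private theorem dl_res (hY : Y' ⊆ Y) (S : U → ZMod 2) : dl X Y' S = resC Y' (dl X Y S) := by
  have h := dl_sdiff (X := X) (Y := Y) (Y \ Y') S
  rwa [Finset.sdiff_sdiff_eq_self hY] at h

/-- crossing labels vanish on `Y'` -/
private theorem res_cross {F : SimpleGraph V} (H : HomX X Y F) (Z : Set V)
    (hcut : ∀ a ∈ Z, ∀ b ∉ Z, F.Adj a b → H.f a ∈ Y' → H.f b ∈ Y' → False) {a b : V} (ha : a ∈ Z)
    (hb : b ∉ Z) : resC Y' (H.y a b) = 0 := by
  funext e
  by_contra h
  have h1 := resC_ne _ _ _ h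
  have h2 := resC_mem _ _ _ h
  have h3 : H.y a b ≠ 0 := fun h0 => h1 (by rw [h0]; rfl)
  have h4 := (H.y_star a b).mem e h1
  have h5 := (H.y_star b a).mem e (by rw [← H.y_symm a b]; exact h1)
  exact hcut a ha b hb (H.y_adj a b h3) (h2 _ h4) (h2 _ h5)

private theorem resC_sum {ι : Type} (s : Finset ι) (K : ι → Ch U) :
    resC Y' (∑ a ∈ s, K a) = ∑ a ∈ s, resC Y' (K a) := by
  induction s using Finset.induction_on with
  | empty =>
    rw [Finset.sum_empty, Finset.sum_empty]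
    funext e
    unfold resC
    split_ifs <;> rfl
  | insert a s ha ih => rw [Finset.sum_insert ha, Finset.sum_insert ha, resC_add, ih]

private theorem near_map {F : SimpleGraph V} {f : V → U}
    (hf : ∀ a b, F.Adj a b → X.Adj (f a) (f b)) {d : ℕ} {a b : V} (h : Near F d a b) :
    Near X d (f a) (f b) := by
  obtain ⟨w, hw⟩ := h
  let φ : F →g X := ⟨f, fun {a b} hab => hf a b hab⟩
  exact ⟨w.map φ, by rw [SimpleGraph.Walk.length_map]; exact hw⟩

private theorem mem_fl {Z : Set V} {a : V} :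
    a ∈ (univ : Finset V).filter (fun a => a ∈ Z) ↔ a ∈ Z := by
  rw [Finset.mem_filter]
  exact ⟨fun h => h.2, fun h => ⟨Finset.mem_univ _, h⟩⟩

private theorem mem_fl' {Z : Set V} {a : V} :
    a ∈ (univ : Finset V).filter (fun a => a ∉ Z) ↔ a ∉ Z := by
  rw [Finset.mem_filter]
  exact ⟨fun h => h.2, fun h => ⟨Finset.mem_univ _, h⟩⟩

/-- the parities are constant on the part far from the cut -/
private theorem rr_const {k n : ℕ} (hI : Iso X D Q k (n + 1) Y) (hQ : 0 < Q) {F : SimpleGraph V}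
    (H : HomX X Y F) (hf : ∀ a b, F.Adj a b → X.Adj (H.f a) (H.f b)) {Z : Set V}
    (hZ : ThinCut k F Z) : ∃ Y' ⊆ Y,
      3 * (Y.filter fun i => i ∈ D ∧ i ∉ Y').card < (Y.filter fun i => i ∈ D).card ∧
      Iso X D Q k n Y' ∧
      (∀ a ∈ Z, ∀ b ∉ Z, F.Adj a b → H.f a ∈ Y' → H.f b ∈ Y' → False) ∧
      ((∀ i ∈ Y', rr H Z i = 0) ∨ (∀ i ∈ Y', rr H Z i = 1)) := by
  obtain ⟨C, hC, hcut⟩ := hZ
  obtain ⟨Y', hY, hcard, hnear, hI'⟩ := hI.2 (C.image H.f) (Finset.card_image_le.trans hC)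
  have hcut' : ∀ a ∈ Z, ∀ b ∉ Z, F.Adj a b → H.f a ∈ Y' → H.f b ∈ Y' → False := by
    intro a ha b hb hab ha' hb'
    obtain ⟨c, hc, h⟩ := hcut a ha b hb hab
    rcases h with h | h
    · exact hnear _ (Finset.mem_image_of_mem _ hc) _ ha' (near_map hf h)
    · exact hnear _ (Finset.mem_image_of_mem _ hc) _ hb' (near_map hf h)
  refine ⟨Y', hY, hcard, hI', hcut', ?_⟩
  have h0 : dl X Y' (rr H Z) = 0 := by
    rw [dl_res hY, dl_cut, resC_sum]
    refine Finset.sum_eq_zero fun a ha => ?_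
    rw [resC_sum]
    refine Finset.sum_eq_zero fun b hb => ?_
    exact res_cross H Z hcut' (mem_fl.mp ha) (mem_fl'.mp hb)
  have h1 := const_of_dl_eq_zero hI'.good hQ h0
  obtain ⟨i₀, hi₀⟩ := hI'.good.ne
  rcases (by decide : ∀ x : ZMod 2, x = 0 ∨ x = 1) (rr H Z i₀) with h | h
  · exact Or.inl fun i hi => (h1 i hi i₀ hi₀).trans h
  · exact Or.inr fun i hi => (h1 i hi i₀ hi₀).trans h

theorem dec_small {P : SimpleGraph V → Prop} {k n : ℕ} (hI : Iso X D Q k (n + 1) Y) (hQ : 0 < Q)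
    (hP : ∀ Y' : Finset U, Iso X D Q k n Y' → ∀ F : SimpleGraph V, P F → ∀ H : HomX X Y' F,
      (∀ a b, F.Adj a b → X.Adj (H.f a) (H.f b)) → False)
    {F : SimpleGraph V} (H : HomX X Y F) (hf : ∀ a b, F.Adj a b → X.Adj (H.f a) (H.f b))
    {Z : Set V} (hZ : Dec P k F Z) :
    3 * (Y.filter fun i => i ∈ D ∧ rr H Z i ≠ 0).card < (Y.filter fun i => i ∈ D).card := by
  have zero : ∀ {Z : Set V} {Y' : Finset U},
      3 * (Y.filter fun i => i ∈ D ∧ i ∉ Y').card < (Y.filter fun i => i ∈ D).card →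
      (∀ i ∈ Y', rr H Z i = 0) →
      3 * (Y.filter fun i => i ∈ D ∧ rr H Z i ≠ 0).card < (Y.filter fun i => i ∈ D).card := by
    intro Z Y' hcard h
    have h1 : (Y.filter fun i => i ∈ D ∧ rr H Z i ≠ 0).card ≤
        (Y.filter fun i => i ∈ D ∧ i ∉ Y').card := by
      refine Finset.card_le_card fun i hi => ?_
      rw [Finset.mem_filter] at hi ⊢
      exact ⟨hi.1, hi.2.1, fun h' => hi.2.2 (h i h')⟩
    omega
  induction hZ with
  | leaf Z h hc =>
    obtain ⟨Y', hY, hcard, hI', hcut, h0 | h1⟩ := rr_const hI hQ H hf hc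
    · exact zero hcard h0
    · exfalso
      obtain ⟨H', hH'⟩ := res_homX hY H hf Z h1 hcut
      exact hP Y' hI' _ h H' fun a b hab => by
        rw [hH']
        exact hf a b hab.1
  | node Z₁ Z₂ hZ₁ hZ₂ hd hc ih₁ ih₂ =>
    have hadd : ∀ i, rr H (Z₁ ∪ Z₂) i = rr H Z₁ i + rr H Z₂ i := by
      intro i
      unfold rr
      rw [← Finset.sum_union]
      · refine Finset.sum_congr ?_ fun _ _ => rfl
        ext a
        simp
      · rw [Finset.disjoint_filter]
        intro a _ haY haZ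
        exact Set.disjoint_left.mp hd haY haZ
    have hle : (Y.filter fun i => i ∈ D ∧ rr H (Z₁ ∪ Z₂) i ≠ 0).card ≤
        (Y.filter fun i => i ∈ D ∧ rr H Z₁ i ≠ 0).card +
          (Y.filter fun i => i ∈ D ∧ rr H Z₂ i ≠ 0).card := by
      refine (Finset.card_le_card ?_).trans (Finset.card_union_le _ _)
      intro i hi
      rw [Finset.mem_filter] at hi
      rw [Finset.mem_union, Finset.mem_filter, Finset.mem_filter]
      by_contra hcon
      rw [not_or] at hcon
      have e1 : rr H Z₁ i = 0 := by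
        by_contra hne
        exact hcon.1 ⟨hi.1, hi.2.1, hne⟩
      have e2 : rr H Z₂ i = 0 := by
        by_contra hne
        exact hcon.2 ⟨hi.1, hi.2.1, hne⟩
      apply hi.2.2
      rw [hadd, e1, e2, add_zero]
    obtain ⟨Y', hY, hcard, hI', hcut, h0 | h1⟩ := rr_const hI hQ H hf hc
    · exact zero hcard h0
    · exfalso
      have h2 : (Y.filter fun i => i ∈ D).card ≤ (Y.filter fun i => i ∈ D ∧ i ∉ Y').card +
          (Y.filter fun i => i ∈ D ∧ rr H (Z₁ ∪ Z₂) i ≠ 0).card := by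
        refine (Finset.card_le_card ?_).trans (Finset.card_union_le _ _)
        intro i hi
        rw [Finset.mem_filter] at hi
        rw [Finset.mem_union, Finset.mem_filter, Finset.mem_filter]
        by_cases hiY : i ∈ Y'
        · right
          refine ⟨hi.1, hi.2, ?_⟩
          rw [h1 i hiY]
          exact one_ne_zero
        · exact Or.inl ⟨hi.1, hi.2, hiY⟩
      omega

theorem no_copy_dec {P : SimpleGraph V → Prop} {k n : ℕ} (hI : Iso X D Q k (n + 1) Y) (hQ : 0 < Q)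
    (hP : ∀ Y' : Finset U, Iso X D Q k n Y' → ∀ F : SimpleGraph V, P F → ∀ H : HomX X Y' F,
      (∀ a b, F.Adj a b → X.Adj (H.f a) (H.f b)) → False)
    {F : SimpleGraph V} (hF : Dec P k F Set.univ) (H : HomX X Y F)
    (hf : ∀ a b, F.Adj a b → X.Adj (H.f a) (H.f b)) : False := by
  have h1 := dec_small hI hQ hP H hf hF
  have h2 : (Y.filter fun i => i ∈ D ∧ rr H Set.univ i ≠ 0) = Y.filter fun i => i ∈ D := by
    refine Finset.filter_congr fun i hi => ?_
    have h3 := H.total i hi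
    rw [Finset.sum_filter] at h3
    have h4 : rr H Set.univ i = 1 := by
      rw [← h3]
      unfold rr
      refine Finset.sum_congr ?_ fun _ _ => rfl
      ext a
      simp
    rw [h4]
    exact ⟨fun h => h.1, fun h => ⟨h, one_ne_zero⟩⟩
  rw [h2] at h1
  omega

end Pool.Agent.HomO
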