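import Pool.Agent.HomO.Build
import Pool.Agent.HomQ.CfiReg
import Pool.Agent.HomO.Res
import Pool.Agent.HomO.Odd
import Pool.Agent.HomQ.CoarseC
import Pool.Agent.HomW.NoX

/-!
# Homomorphism counts from the coarse classes `M k n` do not decide isomorphism (helper32)

`no_copy_M`: no graph of the class `M k n` contains a homological copy of the graph of
`exists_iso` over a homomorphism.
-/

set_option autoImplicit false

namespace Pool.Agent.HomO

open Finset Classical Pool.Agent.HomV Pool.Agent.HomI Pool.Agent.HomW Pool.Agent.HomQ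

theorem no_copy_M {k Q : ℕ} (hQ1 : k < Q) (hQ2 : (k - 1) ^ 2 ≤ Q) (hQ3 : 2 < Q) {U : Type}
    [Fintype U] {X : SimpleGraph U} {D : Finset U}
    (hQ : ∀ {U₀ : Type} [Fintype U₀] (B : SimpleGraph U₀) (Y₀ : Finset U₀), Good B Y₀ Q →
      ∀ {W : Type} [Fintype W] (F : SimpleGraph W), InClass k F → IsEmpty (HomX B Y₀ F))
    {V : Type} [Fintype V] :
    ∀ (n : ℕ) (Y : Finset U), Pool.Agent.HomO.Iso X D Q k n Y → ∀ F : SimpleGraph V, Pool.Agent.HomO.M k n F →
      ∀ H : HomX X Y F, (∀ a b, F.Adj a b → X.Adj (H.f a) (H.f b)) → False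
  | 0, Y, hY, F, hF => by
    change Glue _ F at hF
    induction hF with
    | base F h =>
      rcases h with h | h | h
      · exact fun H hf => no_copy_coarse hQ hY.fat h H hf
      · exact fun H hf => no_copy hQ1.le hQ2 hY.good h H hf
      · exact no_copy_odd hQ1 hY.good hY.nb (fun F h => hQ X Y hY.good F h) h
    | glue F A B hAB hadj hcomplete hA hB ihA ihB =>
      exact fun H hf => glue_copy hQ3 hY.good A B hAB hadj hcomplete ihA ihB H hf
  | n + 1, Y, hY, F, hF => by
    change Glue _ F at hF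
    induction hF with
    | base F h =>
      exact fun H hf => Pool.Agent.HomO.no_copy_dec hY (by omega)
        (fun Y' hY' F' hF' => no_copy_M hQ1 hQ2 hQ3 hQ n Y' hY' F' hF') h H hf
    | glue F A B hAB hadj hcomplete hA hB ihA ihB =>
      exact fun H hf => glue_copy hQ3 hY.good A B hAB hadj hcomplete ihA ihB H hf

theorem main (k n : ℕ) : ∃ (W W' : Type) (_ : Fintype W) (_ : Fintype W') (G : SimpleGraph W)
    (H : SimpleGraph W'),
      (∃ d, (∀ v, (G.neighborSet v).ncard = d) ∧ ∀ v, (H.neighborSet v).ncard = d) ∧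
      IsEmpty (G ≃g H) ∧ ∀ (V : Type) [Fintype V] (F : SimpleGraph V), Pool.Agent.HomO.M k n F →
        Nat.card (F →g G) = Nat.card (F →g H) := by
  obtain ⟨Q, hQ⟩ := Pool.Agent.HomW.no_homX k
  obtain ⟨U, _, X, D, hI, d, hd, hreg⟩ :=
    Pool.Agent.HomO.exists_iso (Q + k + (k - 1) ^ 2 + 3) k n (by omega)
  have hG := hI.good
  obtain ⟨i₀, _⟩ := hG.ne
  exact ⟨_, _, inferInstance, inferInstance, cfi X 0, cfi X (Pi.single i₀ 1),
    ⟨d * 2 ^ (d - 2), fun v => cfi_reg hd hreg _ v, fun v => cfi_reg hd hreg _ v⟩,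
    cfi_not_iso hG (by omega) i₀,
    fun V _ F hF => cfi_hom' hG (by omega) i₀ F fun H hf =>
      no_copy_M (by omega) (by omega) (by omega)
        (fun B Y hY W _ F h => hQ B Y (hY.mono (Q' := Q) (by omega)) F h) n univ hI F hF H hf⟩

end Pool.Agent.HomO
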